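import Pool.Agent.T2H37.LB.Main2

/-!
# The lengths of local cohomology modules of powers of an ideal can grow faster than `n ^ d`

Let `k` be an algebraically closed field of characteristic zero and `w ≥ 0`. There are a polynomial
ring `R` over `k` in `d = w + 15` variables and a homogeneous ideal `I` of `R` such that
`H^{w+4}_m(R / I^n)` has finite length for all `n ≥ 1`, and this length is at least
`c n^(2w+4)` for all large `n`, for a constant `c > 0`. For `w ≥ 12` the exponent `2w + 4` exceeds
`d`, so the ratios of the lengths to `n ^ d` are unbounded: they tend to infinity at least like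
`n^(w-11)`.
-/

set_option autoImplicit false

namespace Pool.Agent.Results.MP_cc5166_ag.UnboundedLengths

open MvPolynomial Pool.Agent.T2H37.LB

theorem result (k : Type) [Field k] [IsAlgClosed k] [CharZero k] (w : ℕ) :
    ∃ (σ : Type) (_ : Fintype σ) (_ : DecidableEq σ) (I : Ideal (MvPolynomial σ k)),
      Fintype.card σ = w + 15 ∧
      (∀ f ∈ I, ∀ D : ℕ, homogeneousComponent D f ∈ I) ∧
      (∀ n : ℕ, 1 ≤ n → lengthH I n (w + 4) ≠ ⊤) ∧
      ∃ c : ℝ, 0 < c ∧ ∃ n0 : ℕ, ∀ n : ℕ, n0 ≤ n →
        c * (n : ℝ) ^ (2 * w + 4) ≤ (lengthH I n (w + 4)).toNat :=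
  main_length2 k w

end Pool.Agent.Results.MP_cc5166_ag.UnboundedLengths
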